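import Mathlib
import Pool.Agent.Helper38.WSatDefs
import Pool.Agent.Helper38.WSat

namespace Pool.Agent.Results.MP_6ac647_co.FormulaFails

open Pool.Agent.Helper38.WSat

/-- The conjectured main term `M(s,t,j) = (s+t+j choose 2) - j(s+t) - 2t`. -/
noncomputable def M (s t j : ℕ) : ℝ :=
  ((s + t + j).choose 2 : ℝ) - j * (s + t) - 2 * t

lemma M_eq (s t j : ℕ) (h : 1 ≤ s + t) :
    M s t j = ((s + t - 1).choose 2 : ℝ) + (s - t) + (j + 1) * (j - 2) / 2 := by
  unfold M
  obtain ⟨N, hN⟩ : ∃ N, s + t = N + 1 := ⟨s + t - 1, by omega⟩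
  have h1 : s + t - 1 = N := by omega
  have h2 : s + t + j = N + 1 + j := by omega
  have h3 : (s : ℝ) + t = N + 1 := by exact_mod_cast hN
  rw [h1, h2, Nat.cast_choose_two, Nat.cast_choose_two]
  push_cast
  rw [h3]
  have h4 : (t : ℝ) = N + 1 - s := by linarith
  rw [h4]
  ring

/-- For all fixed `s ≥ 3` and `j ≥ 2` and every `C`, once `t` is large the weak saturation number
of `K_{s,t}` on `s + t + j` vertices exceeds `M(s,t,j)` by more than `C j` (and, moreover, is
smaller than `M(t,s,j)`, the expression with the roles of `s` and `t` exchanged, by more than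
`C j`). -/
theorem result (C : ℝ) (s j : ℕ) (hs : 2 < s) (hj : 2 ≤ j) :
    ∃ t₀ : ℕ, ∀ t : ℕ, t₀ ≤ t → s ≤ t ∧ j ≤ t - 3 ∧
      M s t j + C * j < (wsat (s + t + j) (K s t) : ℝ) ∧
      (wsat (s + t + j) (K s t) : ℝ) < M t s j - C * j := by
  obtain ⟨A, hA⟩ := exists_nat_gt ((s : ℝ) + (j + 1) * (j - 2) / 2 + C * j + (j + 1) * (s - 1))
  refine ⟨A + s + j + 3, fun t ht => ⟨by omega, by omega, ?_, ?_⟩⟩
  · have hb := (bounds (s := s) (t := t) (j := j) (by omega) (by omega)).1
    have hb' : ((s + t - 1).choose 2 : ℝ) ≤ (wsat (s + t + j) (K s t) : ℝ) := by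
      exact_mod_cast hb
    rw [M_eq s t j (by omega)]
    have ht' : (A : ℝ) ≤ t := by exact_mod_cast (by omega : A ≤ t)
    have hs' : (3 : ℝ) ≤ s := by exact_mod_cast hs
    have hj' : (2 : ℝ) ≤ j := by exact_mod_cast hj
    have : 0 ≤ ((j : ℝ) + 1) * (s - 1) := by nlinarith
    linarith
  · have hb := (bounds (s := s) (t := t) (j := j) (by omega) (by omega)).2
    have hb' : (wsat (s + t + j) (K s t) : ℝ) ≤
        ((s + t - 1).choose 2 : ℝ) + (j + 1) * (s - 1) := by
      have h1 : ((s - 1 : ℕ) : ℝ) = (s : ℝ) - 1 := by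
        rw [Nat.cast_sub (by omega)]; simp
      rw [← h1]
      exact_mod_cast hb
    rw [M_eq t s j (by omega), add_comm t s]
    have ht' : (A : ℝ) + s ≤ t := by exact_mod_cast (by omega : A + s ≤ t)
    have hs' : (3 : ℝ) ≤ s := by exact_mod_cast hs
    have hj' : (2 : ℝ) ≤ j := by exact_mod_cast hj
    have : 0 ≤ ((j : ℝ) + 1) * (j - 2) := by nlinarith
    linarith

end Pool.Agent.Results.MP_6ac647_co.FormulaFails
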