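import Mathlib
import Pool.Agent.Helper38.WSatDefs
import Pool.Agent.Helper84.NF.NoFormula

set_option autoImplicit false

namespace Pool.Agent.Results.MP_6ac647_co.NoFormula

open Pool.Agent.Helper38.WSat

/-- No formula of the shape `(s+t+j choose 2) - δ j(s+t) - α s - β t + O(j)` with constants
`δ, α, β` describes the weak saturation numbers `wsat(s+t+j, K_{s,t})` in the range
`2 < s ≤ t`, `2 ≤ j ≤ t - 3`. -/
theorem result (C δ α β : ℝ) :
    ∃ s t j : ℕ, 2 < s ∧ s ≤ t ∧ 2 ≤ j ∧ j ≤ t - 3 ∧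
      C * j < |(wsat (s + t + j) (K s t) : ℝ) -
        (((s + t + j).choose 2 : ℝ) - δ * (j * (s + t)) - α * s - β * t)| :=
  Pool.Agent.Helper84.NF.main C δ α β

end Pool.Agent.Results.MP_6ac647_co.NoFormula
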