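import Mathlib
import Pool.Agent.Helper38.WSatDefs
import Pool.Agent.Helper38.WSat

namespace Pool.Agent.Results.MP_6ac647_co.TwoSidedBound

open Pool.Agent.Helper38.WSat

/-- For all `1 ≤ s ≤ t` and `j ≥ 0`, the weak saturation number of `K_{s,t}` on `s + t + j`
vertices lies between `(s+t-1 choose 2)` and `(s+t-1 choose 2) + (j+1)(s-1)`. -/
theorem result (s t j : ℕ) (hs : 1 ≤ s) (hst : s ≤ t) :
    (s + t - 1).choose 2 ≤ wsat (s + t + j) (K s t) ∧
      wsat (s + t + j) (K s t) ≤ (s + t - 1).choose 2 + (j + 1) * (s - 1) :=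
  bounds hs hst

end Pool.Agent.Results.MP_6ac647_co.TwoSidedBound
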